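import Pool.Agent.TH900.XM.Meas

/-!
# A simultaneous measure for the nine numbers `ζ(11), ζ(13), …, ζ(27)`

Quantitative form of `OddZeta11To27` (one of the nine numbers is irrational): rational numbers with a common
denominator `q` cannot approximate all the nine numbers with an error below `c q^(-1628)`.

The proof (`Pool/Agent/TH900/XM`, `Pool/Agent/TH900/OM`, on top of the library `Pool/Agent/H343X` of helper343)
applies the Hankel determinants of `H343X` to the rational numbers `a j / q` themselves:

* the functional `N(Q)` with `ζ(j)` replaced by `a j / q` differs from the series by `∑ ρ_i (ζ(i+8) - u_i)`, and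
  `|ρ_i|` is bounded by interpolation of the numerator at points of the two contours of `H343X`;
* the determinant does not vanish if the prime `n` satisfies `n^11 ∤ q`; such a prime exists between
  `25/46 log q` and `1.2708 log q` by the prime number theorem in the class `1` modulo `24`;
* the `p`-adic bounds of `H343X` hold for arbitrary rational numbers with common denominator `q`.
-/

namespace Pool.Agent.Results.MP_4f096c_nt.MeasureZeta11To27

/-- There is `c > 0` such that for all integers `a j` and `q ≥ 1` there is an odd `j`, `11 ≤ j ≤ 27`, with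
`|ζ(j) - a j / q| ≥ c q^(-1628)`, where `ζ(j) = ∑ 1/(n+1)^j`. -/
theorem result : ∃ c : ℝ, 0 < c ∧ ∀ (a : ℕ → ℤ) (q : ℕ), 0 < q → ∃ j : ℕ, Odd j ∧ 11 ≤ j ∧ j ≤ 27 ∧
    c / (q : ℝ) ^ 1628 ≤ |(∑' n : ℕ, 1 / ((n : ℝ) + 1) ^ j) - (a j : ℝ) / q| := by
  obtain ⟨c, hc, h⟩ := Pool.Agent.TH900.XM.measure
  refine ⟨c, hc, fun a q hq => ?_⟩
  obtain ⟨j, hj, h1⟩ := h a q hq
  refine ⟨j, ?_, ?_, ?_, h1⟩
  · fin_cases hj <;> decide
  · fin_cases hj <;> decide
  · fin_cases hj <;> decide

end Pool.Agent.Results.MP_4f096c_nt.MeasureZeta11To27
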